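import Pool.Agent.Helper54.S4.Stmts

/-! Realizability of simplicial 4-polytopes: module GO4. -/

set_option autoImplicit false

namespace Pool.Agent.Helper54.S4

open Finset Pool.Agent.Helper54.SP

theorem go4_s3 (h1 : ST_PT4) (Γ : List Gt) (nw j a b c : ℕ) (ha : a < b) (hb : b < c)
    (hc : c < 6) : s3 Γ nw (pt j a) (pt j b) (pt j c) = tb4 (tj j) a b c := by
  obtain ⟨g1, l1, _, n1⟩ := h1.1 j a (by omega)
  obtain ⟨g2, l2, _, n2⟩ := h1.1 j b (by omega)
  obtain ⟨g3, l3, t3, n3⟩ := h1.1 j c hc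
  unfold s3
  rw [if_neg (by omega), if_neg (by omega), if_neg (by omega), if_neg (by omega), t3, l1, l2, l3]

theorem st_GO4 (h1 : ST_PT4) (h2 : ST_AL4) : ST_GO4 := by
  intro Γ nw j a b c x hj ha hb hc hx hgx
  obtain ⟨g1, l1, _, n1⟩ := h1.1 j a (by omega)
  obtain ⟨g2, l2, _, n2⟩ := h1.1 j b (by omega)
  obtain ⟨g3, l3, t3, n3⟩ := h1.1 j c hc
  have hs := go4_s3 h1 Γ nw j a b c ha hb hc
  have hN : pt j c < N4 Γ := (h1.2.2.1 Γ (pt j c) n3).2 (by omega)
  have hab : pt j a < pt j b := by unfold pt; omega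
  have hbc : pt j b < pt j c := by unfold pt; omega
  have hmono := h1.2.2.2.1
  show alt4 (c4 Γ nw) [pt j a, pt j b, pt j c, x] = _
  by_cases e : x = N4 Γ
  · subst e
    rw [(h2 (c4 Γ nw) 0).2.1 _ _ _ _ hab hbc hN]
    unfold c4
    rw [if_pos rfl, hs]
  have hg : gr x ≠ j + 1 := by
    rcases hgx with h | h
    · exact absurd h e
    · exact h
  rcases Nat.lt_or_gt_of_ne hg with hlt | hgt
  · have hxa : x < pt j a := by
      by_contra hcon
      have := hmono (pt j a) x (by omega)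
      omega
    rw [(h2 (c4 Γ nw) 0).2.2.1 _ _ _ _ hab hbc hxa]
    unfold c4
    rw [if_neg (by omega)]
    by_cases e1 : x = 1
    · rw [if_pos e1, hs]
      simp
    · rw [if_neg e1, if_neg (by omega), if_neg (by omega), if_neg (by omega),
        if_pos (by omega), t3, l1, l2, l3]
      simp
  · have hxc : pt j c < x := by
      by_contra hcon
      have := hmono x (pt j c) (by omega)
      omega
    rw [(h2 (c4 Γ nw) 0).2.1 _ _ _ _ hab hbc hxc]
    unfold c4
    rw [if_neg e, if_neg (by omega), if_neg (by omega), if_pos (by omega), hs]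

end Pool.Agent.Helper54.S4
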